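import Mathlib

/-! A q-analogue of Rado's theorem for q-transversals. -/

namespace Pool.Agent.Results.MP_ca0b96_co.QRado

open Module Submodule

variable {F V : Type} [Field F] [AddCommGroup V] [Module F V]

/-- The rank axioms of a `q`-matroid. -/
def IsQMatroid (r : Submodule F V → ℕ) : Prop :=
  (∀ A, r A ≤ finrank F A) ∧ (∀ A B, A ≤ B → r A ≤ r B) ∧
    ∀ A B, r (A ⊔ B) + r (A ⊓ B) ≤ r A + r B

def Indep (r : Submodule F V → ℕ) (A : Submodule F V) : Prop := r A = finrank F A

/-- The bar nullity: the least `dim (B ∩ X)` over bases (maximal independent subspaces) `B`. -/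
noncomputable def nbar (r : Submodule F V → ℕ) (X : Submodule F V) : ℕ :=
  sInf {d | ∃ B, Maximal (Indep r) B ∧ finrank F (B ⊓ X : Submodule F V) = d}

/-- `T` is a `q`-transversal of `X`: every vector basis of `T` can be listed with `b i ∉ X i`. -/
def IsTrans {n : ℕ} (X : Fin n → Submodule F V) (T : Submodule F V) : Prop :=
  finrank F T = n ∧ ∀ b : Basis (Fin n) F T, ∃ σ : Equiv.Perm (Fin n), ∀ i, (b (σ i) : V) ∉ X i

variable [Finite V] {r : Submodule F V → ℕ}

lemma grow (hr : IsQMatroid r) (I Y : Submodule F V) (hI : Indep r I) (h1 : r I < r ⊤)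
    (h2 : Y ≠ ⊤) : ∃ v ∉ Y, Indep r (I ⊔ F ∙ v) := by
  obtain ⟨C, hC, hm⟩ := Finite.exists_le_maximal (p := fun C : Submodule F V => r C ≤ r I) le_rfl
  obtain ⟨a, ha⟩ : ∃ a, a ∉ C := by
    by_contra h
    push Not at h
    exact (hm.1.trans_lt h1).ne (by rw [eq_top_iff'.2 h])
  obtain ⟨b, hb⟩ : ∃ b, b ∉ Y := by simpa [eq_top_iff'] using h2
  obtain ⟨v, v1, v2⟩ : ∃ v, v ∉ C ∧ v ∉ Y := by
    by_cases h : a ∈ Y
    · by_cases h' : b ∈ C
      · exact ⟨a + b, by rwa [C.add_mem_iff_left h'], by rwa [Y.add_mem_iff_right h]⟩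
      · exact ⟨b, h', hb⟩
    · exact ⟨a, ha, h⟩
  refine ⟨v, v2, le_antisymm (hr.1 _) ?_⟩
  have e1 := hr.2.2 C (I ⊔ F ∙ v)
  rw [← sup_assoc, sup_eq_left.2 hC] at e1
  have e2 := hr.2.1 I (C ⊓ (I ⊔ F ∙ v)) (le_inf hC le_sup_left)
  have e3 : ¬ r (C ⊔ F ∙ v) ≤ r I := fun h =>
    v1 (hm.2 h le_sup_left (mem_sup_right (mem_span_singleton_self v)))
  have e4 := hm.1
  rw [finrank_sup_span_singleton fun h => v1 (hC h), ← hI]
  omega

lemma avoid (hr : IsQMatroid r) (Y : Submodule F V) (k : ℕ) (h1 : k ≤ r ⊤)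
    (h2 : k + finrank F Y ≤ finrank F V) : ∃ T, Indep r T ∧ finrank F T = k ∧
      finrank F (T ⊔ Y : Submodule F V) = k + finrank F Y := by
  induction k with
  | zero => exact ⟨⊥, le_antisymm (hr.1 _) (by simp), by simp, by rw [bot_sup_eq, zero_add]⟩
  | succ k ih =>
    obtain ⟨T, t1, t2, t3⟩ := ih (by omega) (by omega)
    obtain ⟨v, v1, v2⟩ := grow hr T (T ⊔ Y) t1 (by rw [t1]; omega) fun e => by
      rw [e, finrank_top] at t3; omega
    refine ⟨_, v2, by rw [finrank_sup_span_singleton fun h => v1 (mem_sup_left h), t2], ?_⟩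
    rw [sup_right_comm, finrank_sup_span_singleton v1]
    omega

lemma maxdim (hr : IsQMatroid r) (B : Submodule F V) (hB : Maximal (Indep r) B) :
    finrank F B = r ⊤ := by
  rw [← hB.1]
  by_contra h
  have h := lt_of_le_of_ne (hr.2.1 B ⊤ le_top) h
  obtain ⟨v, v1, v2⟩ := grow hr B B hB.1 h (by rintro rfl; omega)
  exact v1 (hB.2 v2 le_sup_left (mem_sup_right (mem_span_singleton_self v)))

lemma rado {n : ℕ} (X : Fin n → Submodule F V)
    (h : ∀ J : Finset (Fin n), finrank F (J.inf X : Submodule F V) + J.card ≤ finrank F V) :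
    ∃ f : Fin n → V →ₗ[F] F, (∀ i, X i ≤ LinearMap.ker (f i)) ∧
      finrank F (Finset.univ.inf fun i => LinearMap.ker (f i) : Submodule F V) + n ≤ finrank F V := by
  obtain ⟨H, hX, hm⟩ := Finite.exists_le_maximal (p := fun H : Fin n → Submodule F V =>
    ∀ J : Finset (Fin n), finrank F (J.inf H : Submodule F V) + J.card ≤ finrank F V) h
  have viol : ∀ i v, v ∉ H i → ∃ K : Finset (Fin n), i ∉ K ∧
      finrank F V ≤ finrank F ((H i ⊔ F ∙ v) ⊓ K.inf H : Submodule F V) + K.card := by
    intro i v hv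
    by_contra hc
    push Not at hc
    have e : ∀ K : Finset (Fin n), i ∉ K → K.inf (Function.update H i (H i ⊔ F ∙ v)) = K.inf H :=
      fun K hK => Finset.inf_congr rfl fun j hj => Function.update_of_ne (by rintro rfl; exact hK hj) _ _
    have := hm.2 (y := Function.update H i (H i ⊔ F ∙ v)) (fun J => by
      by_cases hi : i ∈ J
      · have := hc (J.erase i) (by simp)
        rw [← Finset.insert_erase hi, Finset.inf_insert, e _ (by simp), Function.update_self,
          Finset.card_insert_of_notMem (by simp)]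
        omega
      · rw [e J hi]; exact hm.1 J) (le_update_self_iff.2 le_sup_left) i
    rw [Function.update_self] at this
    exact hv (this (mem_sup_right (mem_span_singleton_self v)))
  have : ∀ i, ∃ f : V →ₗ[F] F, LinearMap.ker f = H i := by
    intro i
    have h1 := hm.1 {i}
    rw [Finset.inf_singleton, Finset.card_singleton] at h1
    obtain ⟨f, f0, f1⟩ := exists_le_ker_of_lt_top (H i) (lt_top_of_finrank_lt_finrank h1)
    refine ⟨f, le_antisymm (fun u hu => ?_) f1⟩
    by_contra hn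
    obtain ⟨v, hv⟩ : ∃ v, v ∉ LinearMap.ker f := by
      simpa [eq_top_iff'] using mt LinearMap.ker_eq_top.1 f0
    obtain ⟨K, k1, k2⟩ := viol i u hn
    obtain ⟨L, l1, l2⟩ := viol i v fun h => hv (f1 h)
    have a1 := finrank_sup_add_finrank_inf_eq ((H i ⊔ F ∙ u) ⊓ K.inf H) ((H i ⊔ F ∙ v) ⊓ L.inf H)
    have a2 := hm.1 (K ∩ L)
    have a3 := hm.1 (insert i (K ∪ L))
    have a4 := Finset.card_union_add_card_inter K L
    rw [Finset.card_insert_of_notMem (by simp [k1, l1])] at a3
    have a5 := finrank_mono (R := F) (show (H i ⊔ F ∙ u) ⊓ K.inf H ⊔ (H i ⊔ F ∙ v) ⊓ L.inf H ≤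
      (K ∩ L).inf H from sup_le (inf_le_right.trans (Finset.inf_mono Finset.inter_subset_left))
        (inf_le_right.trans (Finset.inf_mono Finset.inter_subset_right)))
    have a6 := finrank_mono (R := F) (show ((H i ⊔ F ∙ u) ⊓ K.inf H) ⊓ ((H i ⊔ F ∙ v) ⊓ L.inf H) ≤
        (insert i (K ∪ L)).inf H by
      rw [Finset.inf_insert, Finset.inf_union, inf_inf_inf_comm]
      refine inf_le_inf_right _ fun x hx => ?_
      obtain ⟨y, hy, _, hz, rfl⟩ := mem_sup.1 hx.2
      obtain ⟨c, rfl⟩ := mem_span_singleton.1 hz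
      have := (sup_le f1 ((span_singleton_le_iff_mem _ _).2 hu)) hx.1
      rw [Submodule.add_mem_iff_right _ (f1 hy)] at this
      rcases eq_or_ne c 0 with rfl | hc
      · simpa using hy
      · exact absurd ((smul_mem_iff _ hc).1 this) hv)
    omega
  choose f hf using this
  exact ⟨f, fun i => hf i ▸ hX i, by rw [funext hf]; simpa using hm.1 Finset.univ⟩

lemma small {n : ℕ} {X : Fin n → Submodule F V} {T : Submodule F V} (h : IsTrans X T)
    (J : Finset (Fin n)) : finrank F (T ⊓ J.inf X : Submodule F V) + J.card ≤ n := by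
  let W := (T ⊓ J.inf X).comap T.subtype
  have e0 : finrank F W = _ := (comapSubtypeEquivOfLe inf_le_left).finrank_eq
  obtain ⟨C, hC⟩ := W.exists_isCompl
  have e1 := (finrank_add_eq_of_isCompl hC).trans h.1
  let e : Fin (finrank F W) ⊕ Fin (finrank F C) ≃ Fin n := finSumFinEquiv.trans (finCongr e1)
  obtain ⟨σ, hσ⟩ := h.2
    ((((finBasis F W).prod (finBasis F C)).map (prodEquivOfIsCompl W C hC)).reindex e)
  have := Finset.card_le_card_of_injOn (s := J) (t := Finset.univ.map Function.Embedding.inr)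
    (fun i => e.symm (σ i)) (fun i hi => by
      have := hσ i
      rw [Basis.reindex_apply] at this
      simp only
      rcases hh : e.symm (σ i) with a | a
      · rw [hh] at this
        refine absurd (Finset.inf_le (f := X) hi ?_) this
        simpa using (finBasis F W a).2.2
      · simp) (e.symm.injective.comp σ.injective).injOn
  simp at this
  omega

theorem result (F V : Type) [Field F] [Finite F] [AddCommGroup V] [Module F V]
    [FiniteDimensional F V] (r : Submodule F V → ℕ) (hr : IsQMatroid r) (n : ℕ)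
    (X : Fin n → Submodule F V) : (∃ T, IsTrans X T ∧ Indep r T) ↔
      ∀ J : Finset (Fin n), nbar r (J.inf X) + J.card ≤ nbar r ⊤ := by
  have : Finite V := Module.finite_of_finite F
  have att : ∀ Y, ∃ B, Maximal (Indep r) B ∧ finrank F (B ⊓ Y : Submodule F V) = nbar r Y := by
    intro Y
    obtain ⟨B, -, hB⟩ := Finite.exists_le_maximal (p := Indep r) (a := ⊥)
      (le_antisymm (hr.1 _) (by simp))
    exact Nat.sInf_mem (s := {d | ∃ B, Maximal (Indep r) B ∧ finrank F (B ⊓ Y : Submodule F V) = d})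
      ⟨_, B, hB, rfl⟩
  have top : nbar r ⊤ = r ⊤ := by
    obtain ⟨B, h1, h2⟩ := att ⊤
    rw [← h2, inf_top_eq, maxdim hr B h1]
  rw [top]
  constructor
  · rintro ⟨T, h1, h2⟩ J
    obtain ⟨B, hT, hB⟩ := Finite.exists_le_maximal (p := Indep r) h2
    have a1 : nbar r (J.inf X) ≤ _ := Nat.sInf_le ⟨B, hB, rfl⟩
    have a2 := finrank_sup_add_finrank_inf_eq T (B ⊓ J.inf X)
    have a3 := finrank_mono (R := F) (sup_le hT (inf_le_left (b := J.inf X)))
    have a4 := small h1 J
    rw [← inf_assoc, inf_eq_left.2 hT, h1.1] at a2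
    rw [maxdim hr B hB] at a3
    omega
  · intro h
    obtain ⟨f, f1, f2⟩ := rado X fun J => by
      obtain ⟨B, h1, h2⟩ := att (J.inf X)
      have a1 := finrank_sup_add_finrank_inf_eq B (J.inf X)
      have a2 := finrank_le (B ⊔ J.inf X)
      have a3 := h J
      rw [maxdim hr B h1] at a1
      omega
    have a1 := h Finset.univ
    rw [Finset.card_fin] at a1
    obtain ⟨T, t1, t2, t3⟩ := avoid hr _ n (by omega) (add_comm _ n ▸ f2)
    refine ⟨T, ⟨t2, fun b => ?_⟩, t1⟩
    have a2 := finrank_sup_add_finrank_inf_eq T (Finset.univ.inf fun i => LinearMap.ker (f i))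
    rw [t3, t2, add_eq_left, finrank_eq_zero] at a2
    have d : (Matrix.of fun j i => f i (b j)).det ≠ 0 := by
      rw [Ne, ← Matrix.exists_vecMul_eq_zero_iff]
      rintro ⟨c, c0, hc⟩
      refine c0 (funext (Fintype.linearIndependent_iff.1 b.linearIndependent c (Subtype.ext ?_)))
      refine (mem_bot F).1 (a2 ▸ ⟨Subtype.prop _, mem_finsetInf.2 fun i _ => ?_⟩)
      simpa [Matrix.vecMul, dotProduct] using congrFun hc i
    rw [Matrix.det_apply] at d
    obtain ⟨σ, -, hσ⟩ := Finset.exists_ne_zero_of_sum_ne_zero d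
    exact ⟨σ, fun i hi => right_ne_zero_of_smul hσ
      (Finset.prod_eq_zero (Finset.mem_univ i) (f1 i hi))⟩

end Pool.Agent.Results.MP_ca0b96_co.QRado
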